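import Pool.Agent.Helper80.MM.Stm

/-!
Project MM (helper80), package PB1 (helper13): the base is a stage, stable under conjugation.
-/

set_option autoImplicit false

namespace Pool.Agent.Helper13.MM

open Pool.Agent.Helper35.EM Pool.Agent.Helper56.SA Pool.Agent.Helper56.EM Pool.Agent.Helper56.NL
  Pool.Agent.Helper56.HS Pool.Agent.Helper80.MM Module Submodule Set ComplexConjugate

/-- the new values are rationally independent -/
theorem li_new {D : ℕ} {s t : ℕ → ℝ} (hs : Seq D s t) {w e : ℕ → ℂ} (hw : LB w e) :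
    LinearIndependent ℚ (fun k => e k * (s k : ℂ)) := by
  classical
  rw [linearIndependent_iff]
  intro l hl
  by_contra h0
  have hne : l.support.Nonempty := Finsupp.support_nonempty_iff.2 h0
  obtain ⟨n, hn⟩ : ∃ n, n = l.support.max' hne := ⟨_, rfl⟩
  have hnm : n ∈ l.support := hn ▸ Finset.max'_mem _ _
  rw [Finsupp.linearCombination_apply, Finsupp.sum, ← Finset.add_sum_erase _ _ hnm] at hl
  set A := clF ((fun k => (s k : ℂ)) '' Iio n) with hA
  have hI : Complex.I ∈ A := mem_cl.1 (cl_I _)
  have he : ∀ k, e k ∈ A := by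
    intro k
    rcases (hw.typ k) with h | h
    · rw [h.1]
      exact one_mem _
    · rw [h.1]
      exact hI
  have h1 : ∑ k ∈ l.support.erase n, l k • (e k * (s k : ℂ)) ∈ A := by
    refine sum_mem fun k hk => ?_
    have hk2 : k < n := by
      have h2 := Finset.le_max' _ _ (Finset.mem_of_mem_erase hk)
      rw [← hn] at h2
      exact lt_of_le_of_ne h2 (Finset.ne_of_mem_erase hk)
    have h3 : (s k : ℂ) ∈ A := mem_cl.1 (cl_self ⟨k, hk2, rfl⟩)
    exact A.smul_mem (mul_mem (he k) h3)
  have h2 : l n • (e n * (s n : ℂ)) ∈ A := by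
    rw [eq_neg_of_add_eq_zero_left hl]
    exact neg_mem h1
  have h3 : e n * (s n : ℂ) ∈ A := by
    have h4 := A.smul_mem (x := (l n)⁻¹) h2
    rwa [smul_smul, inv_mul_cancel₀ (Finsupp.mem_support_iff.1 hnm), one_smul] at h4
  apply hs.free n
  rw [mem_cl]
  rcases (hw.typ n) with h | h
  · rw [h.1, one_mul] at h3
    exact h3
  · rw [h.1] at h3
    have h5 := neg_mem (mul_mem hI h3)
    rwa [← mul_assoc, Complex.I_mul_I, neg_one_mul, neg_neg] at h5

/-- **Package PB1.** -/
theorem pb1 : S_PB1 := by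
  classical
  intro D s t hs w e hw
  refine ⟨⟨?_, ?_, ?_, ?_⟩, ?_⟩
  · intro p hp
    rw [mem_cl]
    have h1 : p.1 ∈ (PB s w e).map (LinearMap.fst ℚ ℂ ℂ) := ⟨p, hp, rfl⟩
    rw [PB, map_span, ← range_comp] at h1
    have h2 : span ℚ (range ((LinearMap.fst ℚ ℂ ℂ) ∘ fun k => (e k * (s k : ℂ), w k))) ≤
        (clF (range fun k => (s k : ℂ))).toSubmodule := by
      rw [span_le]
      rintro _ ⟨k, rfl⟩
      have hek : e k ∈ clF (range fun k => (s k : ℂ)) := by
        rcases (hw.typ k) with h | h
        · rw [h.1]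
          exact one_mem _
        · rw [h.1]
          exact mem_cl.1 (cl_I _)
      change e k * (s k : ℂ) ∈ clF (range fun k => (s k : ℂ))
      exact mul_mem hek (mem_cl.1 (cl_self ⟨k, rfl⟩))
    exact h2 h1
  · intro p hp
    have h1 : p.2 ∈ (PB s w e).map (LinearMap.snd ℚ ℂ ℂ) := ⟨p, hp, rfl⟩
    rw [PB, map_span, ← range_comp] at h1
    exact cl_mono (empty_subset _) ((hw.spn p.2).1 h1)
  · intro p hp h0
    obtain ⟨l, rfl⟩ := (Finsupp.mem_span_range_iff_exists_finsupp).1 hp
    have h1 : Finsupp.linearCombination ℚ (fun k => e k * (s k : ℂ)) l = 0 := by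
      rw [← h0, Finsupp.linearCombination_apply, Finsupp.sum, Finsupp.sum, Prod.fst_sum]
      rfl
    rw [(linearIndependent_iff.1 (li_new hs hw)) l h1, Finsupp.sum_zero_index]
  · intro p hp h0
    obtain ⟨l, rfl⟩ := (Finsupp.mem_span_range_iff_exists_finsupp).1 hp
    have h1 : Finsupp.linearCombination ℚ w l = 0 := by
      rw [← h0, Finsupp.linearCombination_apply, Finsupp.sum, Finsupp.sum, Prod.snd_sum]
      rfl
    rw [(linearIndependent_iff.1 hw.ind) l h1, Finsupp.sum_zero_index]
  · intro p hp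
    refine span_induction (p := fun p _ => (conj p.1, conj p.2) ∈ PB s w e) ?_ ?_ ?_ ?_ hp
    · rintro _ ⟨k, rfl⟩
      have hk : (e k * (s k : ℂ), w k) ∈ PB s w e := subset_span ⟨k, rfl⟩
      rcases (hw.typ k) with h | h
      · change (conj (e k * (s k : ℂ)), conj (w k)) ∈ PB s w e
        rw [map_mul, Complex.conj_ofReal, h.2, h.1, map_one]
        rw [h.1] at hk
        exact hk
      · change (conj (e k * (s k : ℂ)), conj (w k)) ∈ PB s w e
        rw [map_mul, Complex.conj_ofReal, h.2, h.1, Complex.conj_I, neg_mul]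
        rw [h.1] at hk
        exact neg_mem hk
    · change (conj (0 : ℂ), conj (0 : ℂ)) ∈ PB s w e
      rw [map_zero]
      exact zero_mem _
    · intro x y _ _ hx hy
      change (conj (x.1 + y.1), conj (x.2 + y.2)) ∈ PB s w e
      rw [map_add, map_add]
      exact add_mem hx hy
    · intro q x _ hx
      have hconjq : ∀ z : ℂ, conj (q • z) = q • conj z := by
        intro z
        rw [Algebra.smul_def, Algebra.smul_def, map_mul, eq_ratCast, map_ratCast]
      change (conj (q • x.1), conj (q • x.2)) ∈ PB s w e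
      rw [hconjq, hconjq]
      exact smul_mem _ q hx

end Pool.Agent.Helper13.MM
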